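import Pool.Agent.Helper93_LEC.BESa
import Pool.Agent.Helper3_LE.ZooG

/-!
# BES: a cube in which all small cubes conduct is not insulating
-/

set_option autoImplicit false
set_option linter.unusedSectionVars false

open MeasureTheory ProbabilityTheory Function Filter

open scoped ENNReal BigOperators Topology

noncomputable section

namespace Pool.Agent.LE.H93C

open Pool.Agent.Anderson Pool.Agent.Loc Pool.Agent.Mob Pool.Agent.Helper54.Bal

variable {d : ℕ}

theorem bes (uch : UchStmt) (cnt : CntStmt) (cdu : CduStmt) (reg : RegStmt) (ben : BenStmt) :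
    BesStmt := by
  classical
  intro d B κ hd hB hκ hκ1
  set q : ℕ := d ^ 2 + 4 * d with hq
  obtain ⟨C, hC, huch⟩ := uch d q B hd (by rw [hq]; exact Nat.le_add_left _ _) hB
  obtain ⟨cs, M, p, hcs, hM, hp, hp1, hMk, hben⟩ := ben d C κ hd hC hκ hκ1
  have hM0 : (1 : ℝ) ≤ M := by exact_mod_cast hM
  set τ : ℝ := 1 / (100 * (M + 1)) with hτ
  have hτ0 : 0 < τ := by positivity
  refine ⟨τ, p, hτ0, hp, hp1, fun R hR => ?_⟩
  obtain ⟨L₁, hreg⟩ := reg d (3 * R) B τ (1 / 8) hd hB hτ0 (by norm_num)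
  obtain ⟨L₂, hlarge⟩ := exists_large d hτ0
  refine ⟨max (max L₁ L₂) (8 * (M + 1)), ?_⟩
  intro σ E N L L' a hpar hL0 hLL hLR hbox hsg hins
  have hL1 : L₁ ≤ L' := (le_max_left _ _).trans ((le_max_left _ _).trans hL0)
  have hL2 : L₂ ≤ L' := (le_max_right _ _).trans ((le_max_left _ _).trans hL0)
  have hL3 : 8 * (M + 1) ≤ L' := (le_max_right _ _).trans hL0
  set s : ℕ := L' / (4 * M + 4) with hs
  have hs2 : 2 ≤ s := by
    rw [hs, Nat.le_div_iff_mul_le (by omega)]
    omega
  have hs1 : 1 ≤ s := by omega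
  set n : ℕ := L / s with hn
  obtain ⟨h4M, hsn, hLn, hnM, hsW⟩ := mesh hs hn hs1 hLL
  have hsR : (L' : ℝ) / (8 * (M + 1)) ≤ s := by
    have h1 : L' < (4 * M + 4) * (s + 1) := by
      rw [hs]
      exact Nat.lt_mul_div_succ L' (by omega)
    have h2 : (L' : ℝ) ≤ (4 * M + 4) * (s + 1) := by exact_mod_cast h1.le
    have h3 : (2 : ℝ) ≤ s := by exact_mod_cast hs2
    rw [div_le_iff₀ (by positivity)]
    have h4 : (4 * (M : ℝ) + 4) * (s + 1) ≤ (4 * M + 4) * (2 * s) :=
      mul_le_mul_of_nonneg_left (by linarith only [h3]) (by positivity)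
    linarith only [h2, h4]
  set t : ℝ := τ * L' with ht
  have hL'0 : (0 : ℝ) ≤ L' := Nat.cast_nonneg _
  have ht0 : 0 ≤ t := by positivity
  have hts : 12 * t ≤ s := by
    refine le_trans ?_ hsR
    rw [ht, hτ, le_div_iff₀ (by positivity)]
    have : 12 * (1 / (100 * ((M : ℝ) + 1)) * L') * (8 * (M + 1)) = 96 / 100 * L' := by
      field_simp
      ring
    rw [this]
    linarith only [hL'0]
  set W : ℕ := n + 4 * M + 3 with hW
  set m : ℕ := ⌊κ * L / (8 * cs * s)⌋₊ with hm
  have hs0 : (0 : ℝ) < s := by exact_mod_cast (by omega : 0 < s)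
  have hcs0 : 0 < cs := by linarith
  -- the events
  set A1 : Set (Site d → ℝ) := {V | ¬ RegE V N (3 * L) L' a E (τ * L')} with hA1
  set A2 : Set (Site d → ℝ) := {V | ¬ ∀ x ∈ box a (2 * L), ∀ y ∈ box a (2 * L), L + 1 ≤ sd x y →
    κ * L ≤ DL (box 0 N) E V x y} with hA2
  set T3 : ℝ := 4 * p * (2 * n + 1) ^ d with hT3
  set A3 : Set (Site d → ℝ) := {V | ENNReal.ofReal T3 ≤ ∑ k ∈ box (0 : Site d) n,
    Set.indicator {V | SG V L' τ E (a + sm s k)} 1 V} with hA3
  set T4 : ℝ := 4 * (2 * W + 1) ^ d * (C * s) ^ q with hT4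
  set A4 : Set (Site d → ℝ) := {V | ENNReal.ofReal T4 ≤ ∑ k ∈ box (0 : Site d) W,
    (mx V N E (a + sm s k) s) ^ q} with hA4
  have hL1' : 1 ≤ L := by omega
  have hW1 : box a (3 * L + 1) ⊆ box 0 N := (box_mono a (by omega)).trans hbox
  have p1 : PP d (gl σ) A1 ≤ ENNReal.ofReal (1 / 8) := by
    refine hreg σ E N (3 * L) L' a hpar hL1 ?_ hW1
    calc 3 * L ≤ 3 * (R * L') := by omega
      _ = 3 * R * L' := by ring
  have p2 : PP d (gl σ) A2 ≤ ENNReal.ofReal (1 / 4) := hins
  have hT3pos : 0 < T3 := by positivity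
  have hT4pos : 0 < T4 := by positivity
  have p3 : PP d (gl σ) A3 ≤ ENNReal.ofReal (1 / 4) := by
    refine markov_sum (c := ENNReal.ofReal p) (box (0 : Site d) n) (fun k _ => ?_) (fun k _ => ?_) ?_
      ENNReal.ofReal_ne_top ?_
    · exact measurable_one.indicator (Pool.Agent.LE.H93.meas_SG L' τ E _)
    · rw [lintegral_indicator_one (Pool.Agent.LE.H93.meas_SG L' τ E _), H3G.prob_sg]
      exact hsg
    · rw [Ne, ENNReal.ofReal_eq_zero, not_le]
      exact hT3pos
    · rw [card_box, ← ENNReal.ofReal_natCast, ← ENNReal.ofReal_mul (by positivity)]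
      have e : (4 : ℝ≥0∞) = ENNReal.ofReal 4 := by simp
      rw [e, ← ENNReal.ofReal_mul (by norm_num)]
      apply ENNReal.ofReal_le_ofReal
      rw [hT3]
      push_cast
      exact le_of_eq (by ring)
  have p4 : PP d (gl σ) A4 ≤ ENNReal.ofReal (1 / 4) := by
    refine markov_sum (c := ENNReal.ofReal ((C * s) ^ q)) (box (0 : Site d) W) (fun k _ => ?_)
      (fun k hk => ?_) ?_ ENNReal.ofReal_ne_top ?_
    · exact (measurable_mx N E _ s).pow_const q
    · refine huch σ E hpar N s (a + sm s k) hs1 ?_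
      refine Finset.Subset.trans (fun y hy => ?_) hbox
      rw [mem_box] at hy ⊢
      have h1 := H28A.sd_sm a s W hk
      have h2 := sd_triangle a (a + sm s k) y
      have h3 : s ≤ L := by
        calc s = s * 1 := (mul_one s).symm
          _ ≤ s * n := Nat.mul_le_mul_left _ (by omega)
          _ ≤ L := hsn
      omega
    · rw [Ne, ENNReal.ofReal_eq_zero, not_le]
      exact hT4pos
    · rw [card_box, ← ENNReal.ofReal_natCast, ← ENNReal.ofReal_mul (by positivity)]
      have e : (4 : ℝ≥0∞) = ENNReal.ofReal 4 := by simp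
      rw [e, ← ENNReal.ofReal_mul (by norm_num)]
      apply ENNReal.ofReal_le_ofReal
      rw [hT4]
      push_cast
      exact le_of_eq (by ring)
  obtain ⟨V, hV⟩ : ∃ V, V ∉ (A1 ∪ A2) ∪ (A3 ∪ A4) := by
    by_contra hcon
    push Not at hcon
    have h1 : (A1 ∪ A2) ∪ (A3 ∪ A4) = Set.univ := Set.eq_univ_of_forall hcon
    have h2 : PP d (gl σ) ((A1 ∪ A2) ∪ (A3 ∪ A4)) ≤ ENNReal.ofReal (7 / 8) := by
      calc PP d (gl σ) ((A1 ∪ A2) ∪ (A3 ∪ A4))
          ≤ (PP d (gl σ) A1 + PP d (gl σ) A2) + (PP d (gl σ) A3 + PP d (gl σ) A4) :=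
            (measure_union_le _ _).trans (add_le_add (measure_union_le _ _)
              (measure_union_le _ _))
        _ ≤ (ENNReal.ofReal (1 / 8) + ENNReal.ofReal (1 / 4)) +
            (ENNReal.ofReal (1 / 4) + ENNReal.ofReal (1 / 4)) :=
            add_le_add (add_le_add p1 p2) (add_le_add p3 p4)
        _ = _ := by
            rw [← ENNReal.ofReal_add (by norm_num) (by norm_num),
              ← ENNReal.ofReal_add (by norm_num) (by norm_num),
              ← ENNReal.ofReal_add (by norm_num) (by norm_num)]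
            norm_num
    rw [h1, measure_univ] at h2
    have h3 : ENNReal.ofReal (7 / 8) < 1 := by
      rw [ENNReal.ofReal_lt_one]
      norm_num
    exact absurd h2 (not_le.2 h3)
  simp only [Set.mem_union, not_or] at hV
  obtain ⟨⟨hV1, hV2⟩, hV3, hV4⟩ := hV
  rw [hA1, Set.mem_ofPred_eq, not_not] at hV1
  rw [hA2, Set.mem_ofPred_eq, not_not] at hV2
  rw [hA3, Set.mem_ofPred_eq, not_le] at hV3
  rw [hA4, Set.mem_ofPred_eq, not_le] at hV4
  obtain ⟨r1, r2, r3, r4, r5⟩ := hV1
  set G : Finset (Site d) := (box (0 : Site d) n).filter fun k => ¬ SG V L' τ E (a + sm s k)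
    with hG
  set c : Site d → ℝ := fun k => (mx V N E (a + sm s k) s).toReal / s with hc
  have hc0 : ∀ k, 0 ≤ c k := fun k => div_nonneg ENNReal.toReal_nonneg hs0.le
  -- the two counts
  have hcardG : (((box (0 : Site d) n) \ G).card : ℝ) ≤ T3 := by
    have h1 : (box (0 : Site d) n) \ G = (box (0 : Site d) n).filter
        fun k => SG V L' τ E (a + sm s k) := by
      ext k
      rw [hG, Finset.mem_sdiff, Finset.mem_filter, Finset.mem_filter]
      constructor
      · rintro ⟨q1, q2⟩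
        exact ⟨q1, by_contra fun q3 => q2 ⟨q1, q3⟩⟩
      · rintro ⟨q1, q2⟩
        exact ⟨q1, fun q3 => q3.2 q2⟩
    have h2 : (∑ k ∈ box (0 : Site d) n, Set.indicator {V | SG V L' τ E (a + sm s k)} 1 V :
        ℝ≥0∞) = (((box (0 : Site d) n) \ G).card : ℝ≥0∞) := by
      rw [h1, Finset.card_filter]
      push_cast
      refine Finset.sum_congr rfl fun k _ => ?_
      simp only [Set.indicator_apply, Set.mem_ofPred_eq, Pi.one_apply]
    rw [h2] at hV3
    have h3 := hV3.le
    rw [← ENNReal.ofReal_natCast] at h3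
    exact (ENNReal.ofReal_le_ofReal_iff hT3pos.le).1 h3
  have hsum : ∑ k ∈ box (0 : Site d) W, (c k / cs) ^ q ≤ 4 * (2 * W + 1) ^ d * (C / cs) ^ q := by
    have h1 : ∑ k ∈ box (0 : Site d) W, (mx V N E (a + sm s k) s).toReal ^ q ≤ T4 := by
      have h2 := ENNReal.toReal_mono ENNReal.ofReal_ne_top hV4.le
      rw [ENNReal.toReal_ofReal hT4pos.le, ENNReal.toReal_sum
        (fun k _ => ENNReal.pow_ne_top (mx_ne_top V N E _ s))] at h2
      refine le_trans (le_of_eq ?_) h2
      refine Finset.sum_congr rfl fun k _ => ?_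
      rw [ENNReal.toReal_pow]
    have h2 : ∑ k ∈ box (0 : Site d) W, (c k / cs) ^ q =
        (∑ k ∈ box (0 : Site d) W, (mx V N E (a + sm s k) s).toReal ^ q) * (1 / (s * cs)) ^ q := by
      rw [Finset.sum_mul]
      refine Finset.sum_congr rfl fun k _ => ?_
      rw [← mul_pow, hc]
      congr 1
      field_simp
    rw [h2]
    refine (mul_le_mul_of_nonneg_right h1 (by positivity)).trans (le_of_eq ?_)
    rw [hT4, mul_assoc, ← mul_pow]
    congr 2
    field_simp
  -- the counting lemma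
  have hMt : 1 ≤ Real.exp t := Real.one_le_exp ht0
  have key := cnt d (DL (box 0 N) E V) a s n M m q t (κ * L) cs c G hd hs1 (by omega) hM
    (by rw [hq]; exact (Nat.le_mul_of_pos_left d (by norm_num)).trans (Nat.le_add_left _ _)) hcs ht0
    (by linarith only [hts, ht0]) ?_ (DL_symm _ E V) ?_ ?_ ?_ hc0 ?_ ?_
  · -- the contradiction
    have hnR : (1 : ℝ) ≤ n := by exact_mod_cast (by omega : 1 ≤ n)
    have hWn : ((n + 4 * M + 3 : ℕ) : ℝ) ≤ 2 * n := by exact_mod_cast (by omega : n + 4 * M + 3 ≤ 2 * n)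
    have hWn' : (W : ℝ) ≤ 2 * n := by rw [hW]; exact hWn
    have h1 : T3 ≤ 4 * p * 3 ^ d * (n : ℝ) ^ d := by
      rw [hT3, mul_assoc (4 * p), ← mul_pow]
      have : (2 * (n : ℝ) + 1) ^ d ≤ (3 * n) ^ d := pow_le_pow_left₀ (by positivity) (by linarith) d
      exact mul_le_mul_of_nonneg_left this (by positivity)
    have h2 : (2 * (W : ℝ) + 1) ^ d ≤ 5 ^ d * (n : ℝ) ^ d := by
      rw [← mul_pow]
      exact pow_le_pow_left₀ (by positivity) (by linarith) d
    have h2' : (2 * ((n : ℝ) + 4 * M + 3) + 1) ^ d ≤ 5 ^ d * (n : ℝ) ^ d := by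
      have : (2 * ((n : ℝ) + 4 * M + 3) + 1) = 2 * (W : ℝ) + 1 := by
        rw [hW]; push_cast; ring
      rw [this]
      exact h2
    have h3 : (κ / (16 * cs)) * n ≤ m := by
      have h4 : κ * L / (8 * cs * s) < m + 1 := Nat.lt_floor_add_one _
      have h5 : κ * n / (8 * cs) ≤ κ * L / (8 * cs * s) := by
        rw [div_le_div_iff₀ (by positivity) (by positivity)]
        have : (s : ℝ) * n ≤ L := by exact_mod_cast hsn
        have h6 : κ * n * (8 * cs * s) = (8 * cs * κ) * (s * n) := by ring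
        have h7 : κ * L * (8 * cs) = (8 * cs * κ) * L := by ring
        rw [h6, h7]
        exact mul_le_mul_of_nonneg_left this (by positivity)
      have h8 : 1 ≤ κ / (16 * cs) * n := by
        rw [div_mul_eq_mul_div, le_div_iff₀ (by positivity), one_mul]
        rw [div_le_iff₀ hκ] at hMk
        have h9 : (M : ℝ) ≤ n := by exact_mod_cast (by omega : M ≤ n)
        have h9' := mul_le_mul_of_nonneg_left h9 hκ.le
        linarith only [hMk, h9']
      have h10 : κ * n / (8 * cs) = 2 * (κ / (16 * cs) * n) := by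
        field_simp
        ring
      linarith
    have h4 : (κ / (16 * cs)) ^ d * (n : ℝ) ^ d ≤ (m : ℝ) ^ d := by
      rw [← mul_pow]
      exact pow_le_pow_left₀ (by positivity) h3 d
    have hn0 : (0 : ℝ) < (n : ℝ) ^ d := by positivity
    have h5 : 4 * (2 * (W : ℝ) + 1) ^ d * (C / cs) ^ q ≤
        (4 * 5 ^ d * (C / cs) ^ q) * (n : ℝ) ^ d := by
      have h6 : 0 ≤ (C / cs) ^ q := by positivity
      calc 4 * (2 * (W : ℝ) + 1) ^ d * (C / cs) ^ q = (4 * (C / cs) ^ q) * (2 * (W : ℝ) + 1) ^ d := by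
            ring
        _ ≤ (4 * (C / cs) ^ q) * (5 ^ d * (n : ℝ) ^ d) :=
            mul_le_mul_of_nonneg_left h2 (by positivity)
        _ = _ := by ring
    have h6 : (m : ℝ) ^ d ≤ 4 * p * 3 ^ d * (n : ℝ) ^ d + 2 * (5 ^ d * (n : ℝ) ^ d) / M +
        (2 ^ d + 2 * (8 * M + 9) ^ d / M) * ((4 * 5 ^ d * (C / cs) ^ q) * (n : ℝ) ^ d) := by
      refine key.trans (add_le_add (add_le_add (hcardG.trans h1) ?_) ?_)
      · push_cast
        gcongr
      · refine mul_le_mul_of_nonneg_left (hsum.trans h5) (by positivity)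
    have h7 : 4 * p * 3 ^ d * (n : ℝ) ^ d + 2 * (5 ^ d * (n : ℝ) ^ d) / M +
        (2 ^ d + 2 * (8 * M + 9) ^ d / M) * ((4 * 5 ^ d * (C / cs) ^ q) * (n : ℝ) ^ d) =
        (4 * p * 3 ^ d + 2 * 5 ^ d / M +
        (2 ^ d + 2 * (8 * M + 9) ^ d / M) * (4 * 5 ^ d * (C / cs) ^ q)) * (n : ℝ) ^ d := by
      ring
    rw [h7] at h6
    have h8 := mul_lt_mul_of_pos_right hben hn0
    linarith
  · -- 8 cs s m ≤ κ L
    have h1 : (m : ℝ) ≤ κ * L / (8 * cs * s) := Nat.floor_le (by positivity)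
    rw [le_div_iff₀ (by positivity)] at h1
    linarith
  · intro x hx u hu y hy
    have h23 : 2 * L ≤ 3 * L := by omega
    have hsub : box a (s * (n + 4 * M + 3)) ⊆ box a (3 * L) := box_mono a (hsW.trans h23)
    exact r3 x (hsub hx) u (hsub hu) y (hsub hy)
  · intro k hk
    refine r4 _ ?_
    rw [mem_box]
    have := H28A.sd_sm a s n hk
    omega
  · intro k hk k' hk' i hi hi'
    refine hV2 _ ?_ _ ?_ ?_
    · rw [mem_box]
      have := H28A.sd_sm a s n hk
      omega
    · rw [mem_box]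
      have := H28A.sd_sm a s n hk'
      omega
    · have h1 := abs_le_sd (a + sm s k) (a + sm s k') i
      rw [sm_sub_apply, sm_sub_apply, hi, hi'] at h1
      have h2 : a i + (s : ℤ) * -(n : ℤ) - (a i + (s : ℤ) * (n : ℤ)) = -(2 * ((s : ℤ) * n)) := by ring
      rw [h2, abs_neg, abs_of_nonneg (by positivity)] at h1
      have h3 : 2 * (s * n) ≤ sd (a + sm s k) (a + sm s k') := by exact_mod_cast h1
      have h4 : s * (n + 1) ≤ 2 * (s * n) := by
        have : s ≤ s * n := Nat.le_mul_of_pos_right s (by omega)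
        have e : s * (n + 1) = s * n + s := by ring
        omega
      omega
  · intro k hk x hx
    have h1 := DL_le_mx V N E hx
    rw [hc]
    simp only
    rw [div_mul_cancel₀ _ hs0.ne']
    exact h1
  · intro k hk j hj hjM
    rw [hG, Finset.mem_filter] at hk
    have hk1 := H28A.sd_sm a s n hk.1
    have hjs : 4 * j * s ≤ L' := by
      have : j * s ≤ M * s := Nat.mul_le_mul_right _ hjM
      have e1 : 4 * j * s = 4 * (j * s) := by ring
      have e2 : 4 * M * s = 4 * (M * s) := by ring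
      omega
    have hsubb : box (a + sm s k) (L' + 1) ⊆ box a (3 * L) := by
      intro y hy
      rw [mem_box] at hy ⊢
      have := sd_triangle a (a + sm s k) y
      omega
    obtain ⟨v, hv, hv2⟩ := cdu d V N L' (4 * j * s) (a + sm s k) E τ (Real.exp t) hd hMt hjs
      (hsubb.trans ((box_mono a (Nat.le_succ (3 * L))).trans hW1)) r1
      (fun x hx y hy => (r2 x (hsubb hx) y (hsubb hy)).2)
      (fun r' hr' => r5 r' hr' _ (by rw [mem_box]; linarith)) hk.2
    refine ⟨v, hv, ?_⟩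
    have h1 := conduct_DL (d := d) (t := t) ht0 (hlarge L' hL2) hv2
    refine h1.trans ?_
    have : τ * L' = t := rfl
    linarith
  

end Pool.Agent.LE.H93C
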