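import Pool.Agent.Helper93_LEC.USO

/-!
# USA: upper semicontinuity in the localized phase
-/

set_option autoImplicit false
set_option linter.unusedSectionVars false

open MeasureTheory ProbabilityTheory Function Filter

open scoped ENNReal BigOperators Topology

noncomputable section

namespace Pool.Agent.LE.H93C

open Pool.Agent.Anderson Pool.Agent.Loc Pool.Agent.Mob Pool.Agent.Helper54.Bal
  Pool.Agent.LE.H93

variable {d : ℕ}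

theorem usa (gvu : GvuStmt) (upb : UpbStmt) (tvc : TvcStmt) : UsaStmt := by
  classical
  intro d γ hd hγ q₀ hq₀ hγ0 y hy
  simp only at hy
  set g : ℝ := γ q₀.1 q₀.2 with hg
  set ε : ℝ := (y - g) / 4 with hεdef
  have hε : 0 < ε := by
    rw [hεdef]
    linarith
  obtain ⟨B, hB, hpar⟩ := exists_par hq₀
  obtain ⟨K, hK, η₀, θ, hη₀, hθ, hθ1, hupb⟩ := upb d B (g / 4) (g + 2 * ε) ε hd hB
    (by positivity) (by positivity) hε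
  obtain ⟨Lu, hupb⟩ := hupb η₀ hη₀ le_rfl
  obtain ⟨Q₀, hQ₀, hgvu⟩ := gvu d B η₀ θ hd hB hη₀ hθ
  obtain ⟨J, l, hl, hgvu⟩ := hgvu (K * Q₀) (Nat.le_mul_of_pos_left _ hK)
  have hQ0R : (1 : ℝ) ≤ Q₀ := by exact_mod_cast hQ₀
  have hK0 : (1 : ℝ) ≤ K := by exact_mod_cast hK
  set p₀ : ℝ := θ / (Q₀ : ℝ) ^ d with hp₀
  have hp₀0 : 0 < p₀ := by positivity
  -- large scales at `q₀`
  have hlya := (hγ q₀.1 hq₀ q₀.2).2
  have h1 := (hlya ε hε).1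
  have h2 := (hlya (g / 2) (by positivity)).2
  have hev : ∀ᶠ L : ℕ in atTop, PP d (gl q₀.1) {V | SG V L (g + ε) q₀.2 0} ≤
      ENNReal.ofReal (1 / 8) ∧ PP d (gl q₀.1) {V | ¬ SG V L (g / 2) q₀.2 0} ≤
      ENNReal.ofReal (p₀ / 2) := by
    have e1 : (0 : ℝ≥0∞) < ENNReal.ofReal (1 / 8) := by
      rw [ENNReal.ofReal_pos]
      norm_num
    have e2 : (0 : ℝ≥0∞) < ENNReal.ofReal (p₀ / 2) := by
      rw [ENNReal.ofReal_pos]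
      positivity
    have e3 : g - g / 2 = g / 2 := by ring
    filter_upwards [h1.eventually_lt_const e1, h2.eventually_lt_const e2] with L a1 a2
    rw [← hg, e3] at a2
    exact ⟨a1.le, a2.le⟩
  obtain ⟨L₁, hL₁⟩ := eventually_atTop.1 hev
  set ℓ₀ : ℕ := max l (max Lu (max L₁ 1)) with hℓ₀
  have hℓl : l ≤ ℓ₀ := le_max_left _ _
  have hℓu : Lu ≤ ℓ₀ := by omega
  have hℓ1 : L₁ ≤ ℓ₀ := by omega
  have hℓ : 1 ≤ ℓ₀ := by omega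
  have hLj : ∀ j : ℕ, ℓ₀ ≤ Q₀ * (2 ^ j * ℓ₀) := fun j => by
    calc ℓ₀ = 1 * (1 * ℓ₀) := by ring
      _ ≤ Q₀ * (2 ^ j * ℓ₀) := Nat.mul_le_mul hQ₀ (Nat.mul_le_mul_right _ Nat.one_le_two_pow)
  have hwin : ∀ᶠ q : ℝ × ℝ in 𝓝 q₀, ∀ j ∈ Finset.range (J + 1),
      PP d (gl q.1) {V | SG V (Q₀ * (2 ^ j * ℓ₀)) (g + 2 * ε) q.2 0} ≤ ENNReal.ofReal (1 / 4) ∧
      PP d (gl q.1) {V | ¬ SG V (Q₀ * (2 ^ j * ℓ₀)) (g / 4) q.2 0} ≤ ENNReal.ofReal p₀ := by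
    refine (Finset.eventually_all _).2 fun j _ => ?_
    have a1 := (tvc d (Q₀ * (2 ^ j * ℓ₀)) (g + ε) (g + 2 * ε) (1 / 8) (1 / 4) q₀
      (hℓ.trans (hLj j)) (by norm_num) (by norm_num) hq₀).1 (by linarith)
      (hL₁ _ (hℓ1.trans (hLj j))).1
    have a2 := (tvc d (Q₀ * (2 ^ j * ℓ₀)) (g / 2) (g / 4) (p₀ / 2) p₀ q₀
      (hℓ.trans (hLj j)) (by positivity) (by linarith) hq₀).2 (by linarith)
      (hL₁ _ (hℓ1.trans (hLj j))).2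
    filter_upwards [a1, a2] with q b1 b2
    exact ⟨b1, b2⟩
  filter_upwards [hpar, hwin] with q hq hq2
  obtain ⟨hqp, hq0⟩ := hq
  obtain ⟨σ, E⟩ := q
  simp only at hqp hq0 hq2 ⊢
  obtain ⟨j, hj, N, a, hbox, hbad⟩ := hgvu ℓ₀ hℓl σ E hqp
  obtain ⟨b1, b2⟩ := hq2 j (Finset.mem_range.2 (Nat.lt_succ_of_le hj))
  have hKQ : (Q₀ : ℝ) ^ d ≤ ((K * Q₀ : ℕ) : ℝ) ^ (2 * d) := by
    have h1 : (Q₀ : ℝ) ≤ ((K * Q₀ : ℕ) : ℝ) := by
      push_cast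
      nlinarith
    calc (Q₀ : ℝ) ^ d ≤ ((K * Q₀ : ℕ) : ℝ) ^ d := pow_le_pow_left₀ (by positivity) h1 d
      _ ≤ _ := pow_le_pow_right₀ (hQ0R.trans h1) (by omega)
  have hp : θ / ((K * Q₀ : ℕ) : ℝ) ^ (2 * d) ≤ p₀ :=
    div_le_div_of_nonneg_left hθ.le (by positivity) hKQ
  have hfin := hupb σ E (γ σ E) N Q₀ (2 ^ j * ℓ₀) a hqp (hγ σ hq0 E) hQ₀
    (hℓ.trans (Nat.le_mul_of_pos_left _ (Nat.pow_pos (by norm_num)))) (hℓu.trans (hLj j)) hbox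
    (hbad.trans (ENNReal.ofReal_le_ofReal hp)) b2 b1
  have : g + 2 * ε + ε < y := by
    rw [hεdef]
    linarith
  linarith

end Pool.Agent.LE.H93C
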