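import Pool.Agent.LE.StmtsC
import Pool.Agent.Helper3_LE.ZooG
import Pool.Agent.Helper93_LE.FinG

/-!
# USO: upper semicontinuity where the Lyapunov exponent vanishes
-/

set_option autoImplicit false
set_option linter.unusedSectionVars false

open MeasureTheory ProbabilityTheory Function Filter

open scoped ENNReal BigOperators Topology

noncomputable section

namespace Pool.Agent.LE.H93C

open Pool.Agent.Anderson Pool.Agent.Loc Pool.Agent.Mob Pool.Agent.Helper54.Bal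
  Pool.Agent.LE.H93

variable {d : ℕ}

/-- the parameters near `q₀` stay in a compact set -/
theorem exists_par {q₀ : ℝ × ℝ} (h : q₀.1 ≠ 0) : ∃ B : ℝ, 0 < B ∧
    ∀ᶠ q : ℝ × ℝ in 𝓝 q₀, Par B q.1 q.2 ∧ q.1 ≠ 0 := by
  have h0 : 0 < |q₀.1| := abs_pos.2 h
  refine ⟨|q₀.2| + |q₀.1| + 1 + 2 / |q₀.1|, by positivity, ?_⟩
  have c1 : ContinuousAt (fun q : ℝ × ℝ => |q.1|) q₀ := continuous_fst.abs.continuousAt
  have c2 : ContinuousAt (fun q : ℝ × ℝ => |q.2|) q₀ := continuous_snd.abs.continuousAt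
  have e1 : ∀ᶠ q : ℝ × ℝ in 𝓝 q₀, |q.1| < |q₀.1| + 1 :=
    c1.eventually_lt continuousAt_const (by simp)
  have e2 : ∀ᶠ q : ℝ × ℝ in 𝓝 q₀, |q.2| < |q₀.2| + 1 :=
    c2.eventually_lt continuousAt_const (by simp)
  have e3 : ∀ᶠ q : ℝ × ℝ in 𝓝 q₀, |q₀.1| / 2 < |q.1| :=
    continuousAt_const.eventually_lt c1 (by linarith)
  filter_upwards [e1, e2, e3] with q h1 h2 h3
  have hq : 0 < |q.1| := by linarith
  have h4 : 0 < 2 / |q₀.1| := by positivity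
  refine ⟨⟨by linarith [abs_nonneg q₀.1], by linarith [abs_nonneg q₀.2], ?_⟩, abs_pos.1 hq⟩
  have h5 : 2 / |q₀.1| * (|q₀.1| / 2) = 1 := by field_simp
  have h6 : 2 / |q₀.1| * (|q₀.1| / 2) ≤ 2 / |q₀.1| * |q.1| :=
    mul_le_mul_of_nonneg_left h3.le h4.le
  have h7 : 0 ≤ (|q₀.2| + |q₀.1| + 1) * |q.1| := by positivity
  calc (1 : ℝ) ≤ 2 / |q₀.1| * |q.1| := by linarith
    _ ≤ (|q₀.2| + |q₀.1| + 1) * |q.1| + 2 / |q₀.1| * |q.1| := by linarith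
    _ = _ := by ring

/-- from a product bound -/
theorem le_of_prod {x y : ℝ≥0∞} {p c : ℝ} (hp : 0 < p) (hx : ENNReal.ofReal p < x)
    (h : x * y ≤ ENNReal.ofReal c) : y ≤ ENNReal.ofReal (c / p) := by
  have h1 : ENNReal.ofReal p * y ≤ ENNReal.ofReal c := (mul_le_mul' hx.le le_rfl).trans h
  rw [ENNReal.ofReal_div_of_pos hp]
  rw [ENNReal.le_div_iff_mul_le (Or.inl (by simpa using hp)) (Or.inl ENNReal.ofReal_ne_top),
    mul_comm]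
  exact h1

theorem psg_anti (σ E : ℝ) (L : ℕ) {κ κ' : ℝ} (h : κ' ≤ κ) (v : Site d) :
    PP d (gl σ) {V | SG V L κ E v} ≤ PP d (gl σ) {V | SG V L κ' E v} :=
  measure_mono fun _ hV => sg_mono hV h

theorem pnsg_mono (σ E : ℝ) (L : ℕ) {κ κ' : ℝ} (h : κ' ≤ κ) (v : Site d) :
    PP d (gl σ) {V | ¬ SG V L κ' E v} ≤ PP d (gl σ) {V | ¬ SG V L κ E v} :=
  measure_mono fun _ hV hc => hV (sg_mono hc h)

theorem uso (gvu : GvuStmt) (zos : ZosStmt) (ins : InsStmt2) (upb : UpbStmt) (bes : BesStmt)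
    (tvc : TvcStmt) : UsoStmt := by
  classical
  intro d γ hd hγ q₀ hq₀ hγ0 y hy
  simp only at hy
  rw [hγ0] at hy
  set κ : ℝ := min (y / 2) 1 with hκdef
  have hκ : 0 < κ := lt_min (by linarith) one_pos
  have hκ1 : κ ≤ 1 := min_le_right _ _
  have hκy : κ < y := lt_of_le_of_lt (min_le_left _ _) (by linarith)
  obtain ⟨B, hB, hpar⟩ := exists_par hq₀
  obtain ⟨κB, pB, hκB, hpB, hpB1, hbes⟩ := bes d B (κ / 8) hd hB (by positivity) (by linarith)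
  set κ1 : ℝ := min κB (κ / 8) with hκ1def
  have hκ10 : 0 < κ1 := lt_min hκB (by positivity)
  have hκ1B : κ1 ≤ κB := min_le_left _ _
  have hκ18 : κ1 ≤ κ / 8 := min_le_right _ _
  set p1 : ℝ := min pB (1 / 2) with hp1def
  have hp10 : 0 < p1 := lt_min hpB (by norm_num)
  have hp1B : p1 ≤ pB := min_le_left _ _
  have hp12 : p1 ≤ 1 / 2 := min_le_right _ _
  obtain ⟨K, hK, η₀, θ, hη₀, hθ, hθ1, hupb⟩ := upb d B (κ1 / 2) (κ / 2) (κ / 4) hd hB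
    (by positivity) (by positivity) (by positivity)
  have hK0 : (1 : ℝ) ≤ K := by exact_mod_cast hK
  set η : ℝ := min η₀ (κ1 / (200 * K)) with hηdef
  have hη : 0 < η := lt_min hη₀ (by positivity)
  have hηK : η * K ≤ κ1 / 200 := by
    have h1 : η ≤ κ1 / (200 * K) := min_le_right _ _
    calc η * K ≤ κ1 / (200 * K) * K := mul_le_mul_of_nonneg_right h1 (by positivity)
      _ = κ1 / 200 := by field_simp
  obtain ⟨Lu, hupb⟩ := hupb η hη (min_le_left _ _)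
  obtain ⟨Lz, hzos⟩ := zos d η K hd hη hK
  obtain ⟨Li, hins⟩ := ins d η (κ / 4) K hd hη (by positivity) hK (by nlinarith)
  set θ' : ℝ := θ * p1 / 20 with hθ'def
  have hθ' : 0 < θ' := by positivity
  obtain ⟨Q₀, hQ₀, hgvu⟩ := gvu d B η θ' hd hB hη hθ'
  obtain ⟨J, l, hl, hgvu⟩ := hgvu (K * Q₀) (Nat.le_mul_of_pos_left _ hK)
  obtain ⟨Lb, hbes⟩ := hbes (2 ^ (2 * J + 1)) Nat.one_le_two_pow
  -- large scales at `q₀`
  have hlya := ((hγ q₀.1 hq₀ q₀.2).2 (κ1 / 2) (by positivity)).1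
  rw [hγ0, zero_add] at hlya
  have hev : ∀ᶠ L : ℕ in atTop, PP d (gl q₀.1) {V | SG V L (κ1 / 2) q₀.2 0} ≤
      ENNReal.ofReal (p1 / 2) := by
    have h1 : (0 : ℝ≥0∞) < ENNReal.ofReal (p1 / 2) := by
      rw [ENNReal.ofReal_pos]
      positivity
    exact (hlya.eventually_lt_const h1).mono fun L hL => hL.le
  obtain ⟨L₁, hL₁⟩ := eventually_atTop.1 hev
  set ℓ₀ : ℕ := max l (max (max Lu Lz) (max (max Li Lb) (max L₁ 1))) with hℓ₀
  have hℓl : l ≤ ℓ₀ := le_max_left _ _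
  have hℓu : Lu ≤ ℓ₀ := by omega
  have hℓz : Lz ≤ ℓ₀ := by omega
  have hℓi : Li ≤ ℓ₀ := by omega
  have hℓb : Lb ≤ ℓ₀ := by omega
  have hℓ1 : L₁ ≤ ℓ₀ := by omega
  have hℓ : 1 ≤ ℓ₀ := by omega
  -- the first window, near `q₀`
  have hwin : ∀ᶠ q : ℝ × ℝ in 𝓝 q₀, ∀ j ∈ Finset.range (J + 1),
      PP d (gl q.1) {V | SG V (Q₀ * (2 ^ j * ℓ₀)) κ1 q.2 0} ≤ ENNReal.ofReal p1 := by
    refine (Finset.eventually_all _).2 fun j _ => ?_
    have hLj : ℓ₀ ≤ Q₀ * (2 ^ j * ℓ₀) := by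
      calc ℓ₀ = 1 * (1 * ℓ₀) := by ring
        _ ≤ Q₀ * (2 ^ j * ℓ₀) := Nat.mul_le_mul hQ₀ (Nat.mul_le_mul_right _ Nat.one_le_two_pow)
    exact (tvc d (Q₀ * (2 ^ j * ℓ₀)) (κ1 / 2) κ1 (p1 / 2) p1 q₀ (hℓ.trans hLj) (by positivity)
      (by linarith) hq₀).1 (by linarith) (hL₁ _ (hℓ1.trans hLj))
  filter_upwards [hpar, hwin] with q hq hq2
  obtain ⟨hqp, hq0⟩ := hq
  obtain ⟨σ, E⟩ := q
  simp only at hqp hq0 hq2 ⊢
  refine lt_of_le_of_lt ?_ hκy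
  by_contra hcon
  rw [not_le] at hcon
  -- the good scales
  have hgood : ∀ w : ℕ, ∃ (j N : ℕ) (a : Site d), j ≤ J ∧
      box a (12 * (K * Q₀ * (2 ^ j * (2 ^ ((J + 1) * w) * ℓ₀)))) ⊆ box 0 N ∧
        PP d (gl σ) {V | ¬ GoodU V N (K * Q₀) (2 ^ j * (2 ^ ((J + 1) * w) * ℓ₀)) a E η} ≤
          ENNReal.ofReal (θ' / ((K * Q₀ : ℕ) : ℝ) ^ (2 * d)) := by
    intro w
    obtain ⟨j, hj, N, a, h1, h2⟩ := hgvu (2 ^ ((J + 1) * w) * ℓ₀)
      (hℓl.trans (Nat.le_mul_of_pos_left _ (Nat.pow_pos (by norm_num)))) σ E hqp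
    exact ⟨j, N, a, hj, h1, h2⟩
  choose j N a hjJ hbox hbad using hgood
  set ell : ℕ → ℕ := fun w => 2 ^ (j w) * (2 ^ ((J + 1) * w) * ℓ₀) with hell
  have hell0 : ∀ w, ℓ₀ ≤ ell w := fun w => by
    rw [hell]
    calc ℓ₀ = 1 * (1 * ℓ₀) := by ring
      _ ≤ 2 ^ (j w) * (2 ^ ((J + 1) * w) * ℓ₀) :=
        Nat.mul_le_mul Nat.one_le_two_pow (Nat.mul_le_mul_right _ Nat.one_le_two_pow)
  have hLell : ∀ w, ell w ≤ Q₀ * ell w := fun w => Nat.le_mul_of_pos_left _ hQ₀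
  have hL0 : ∀ w, ℓ₀ ≤ Q₀ * ell w := fun w => (hell0 w).trans (hLell w)
  -- the first window without conduction
  have hex : ∃ w, ¬ PP d (gl σ) {V | SG V (Q₀ * ell w) κ1 E 0} ≤ ENNReal.ofReal p1 := by
    have h1 := ((hγ σ hq0 E).2 (γ σ E - κ1) (by linarith)).2
    rw [show γ σ E - (γ σ E - κ1) = κ1 by ring] at h1
    have h2 := pr_tendsto_one h1
    have h3 : ∀ᶠ L : ℕ in atTop, ENNReal.ofReal p1 < pr d σ E κ1 L := by
      refine h2.eventually_const_lt ?_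
      rw [ENNReal.ofReal_lt_one]
      linarith
    obtain ⟨L₂, hL₂⟩ := eventually_atTop.1 h3
    refine ⟨L₂, not_le.2 (hL₂ _ ?_)⟩
    calc L₂ ≤ 2 ^ L₂ := Nat.lt_two_pow_self.le
      _ ≤ 2 ^ ((J + 1) * L₂) := Nat.pow_le_pow_right (by norm_num)
          (Nat.le_mul_of_pos_left _ (by omega))
      _ ≤ 2 ^ ((J + 1) * L₂) * ℓ₀ := Nat.le_mul_of_pos_right _ hℓ
      _ ≤ ell L₂ := Nat.le_mul_of_pos_left _ (Nat.pow_pos (by norm_num))
      _ ≤ _ := hLell L₂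
  obtain ⟨w, hw, hmin⟩ : ∃ w, ¬ PP d (gl σ) {V | SG V (Q₀ * ell w) κ1 E 0} ≤ ENNReal.ofReal p1 ∧
      ∀ v < w, PP d (gl σ) {V | SG V (Q₀ * ell v) κ1 E 0} ≤ ENNReal.ofReal p1 :=
    ⟨Nat.find hex, Nat.find_spec hex, fun v hv => not_not.1 (Nat.find_min hex hv)⟩
  have hw0 : w ≠ 0 := by
    rintro rfl
    apply hw
    have h1 := hq2 (j 0) (Finset.mem_range.2 (Nat.lt_succ_of_le (hjJ 0)))
    have h2 : Q₀ * ell 0 = Q₀ * (2 ^ (j 0) * ℓ₀) := by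
      rw [hell]
      simp
    rw [h2]
    exact h1
  obtain ⟨v, rfl⟩ := Nat.exists_eq_succ_of_ne_zero hw0
  have hcond := hmin v (Nat.lt_succ_self v)
  rw [not_le] at hw
  set w : ℕ := v + 1 with hwdef
  have hw' : ENNReal.ofReal p1 < PP d (gl σ) {V | SG V (Q₀ * ell w) κ1 E 0} := hw
  -- the numbers
  set p₁ : ℝ := θ' / ((K * Q₀ : ℕ) : ℝ) ^ (2 * d) with hp₁
  have hQ0R : (1 : ℝ) ≤ Q₀ := by exact_mod_cast hQ₀
  have hKQ : (Q₀ : ℝ) ^ d ≤ ((K * Q₀ : ℕ) : ℝ) ^ (2 * d) := by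
    have h1 : (Q₀ : ℝ) ≤ ((K * Q₀ : ℕ) : ℝ) := by
      push_cast
      nlinarith
    calc (Q₀ : ℝ) ^ d ≤ ((K * Q₀ : ℕ) : ℝ) ^ d := pow_le_pow_left₀ (by positivity) h1 d
      _ ≤ _ := pow_le_pow_right₀ (hQ0R.trans h1) (by omega)
  have hQd : (1 : ℝ) ≤ (Q₀ : ℝ) ^ d := one_le_pow₀ hQ0R
  have hp₁0 : 0 ≤ p₁ := by positivity
  have hp₁le : p₁ ≤ θ' / (Q₀ : ℝ) ^ d :=
    div_le_div_of_nonneg_left hθ'.le (by positivity) hKQ
  have hp₁le2 : p₁ ≤ θ' := hp₁le.trans (div_le_self hθ'.le hQd)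
  have hθ'20 : θ' ≤ 1 / 40 := by
    rw [hθ'def]
    have : θ * p1 ≤ 1 * (1 / 2) := mul_le_mul hθ1 hp12 hp10.le (by norm_num)
    linarith
  have hθ'p : θ' ≤ θ * p1 := by
    rw [hθ'def]
    have : 0 < θ * p1 := by positivity
    linarith
  have hp₁a : p₁ ≤ θ / (Q₀ : ℝ) ^ d := by
    refine hp₁le.trans ?_
    gcongr
    nlinarith
  have hp₁b : p₁ / p1 ≤ θ / (Q₀ : ℝ) ^ d := by
    rw [div_le_iff₀ hp10]
    refine hp₁le.trans ?_
    rw [div_mul_eq_mul_div]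
    gcongr
  -- insulation at the rate `κ1 / 2`
  have hLw := hL0 w
  have hlw : 1 ≤ ell w := hℓ.trans (hell0 w)
  have z1 := hzos σ E κ1 p₁ (N w) Q₀ (ell w) (a w) hq0 hp₁0 hQ₀ hlw (hℓz.trans hLw) (hbox w)
    (hbad w)
  have z2 : PP d (gl σ) {V | ¬ SG V (Q₀ * ell w) (κ1 / 2) E 0} ≤
      ENNReal.ofReal (θ / (Q₀ : ℝ) ^ d) := by
    refine (pnsg_mono σ E (Q₀ * ell w) (κ := κ1 - 12 * η * K) (by nlinarith) 0).trans ?_
    exact (le_of_prod hp10 hw' z1).trans (ENNReal.ofReal_le_ofReal hp₁b)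
  -- the rate is at least `κ / 2`
  have z3 : ENNReal.ofReal (1 / 4) < PP d (gl σ) {V | SG V (Q₀ * ell w) (κ / 2) E 0} := by
    by_contra hc
    rw [not_lt] at hc
    have h1 := hupb σ E (γ σ E) (N w) Q₀ (ell w) (a w) hqp (hγ σ hq0 E) hQ₀ hlw (hℓu.trans hLw)
      (hbox w) ((hbad w).trans (ENNReal.ofReal_le_ofReal hp₁a)) z2 hc
    linarith
  have z4 := hzos σ E (κ / 2) p₁ (N w) Q₀ (ell w) (a w) hq0 hp₁0 hQ₀ hlw (hℓz.trans hLw) (hbox w)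
    (hbad w)
  have z5 : PP d (gl σ) {V | ¬ SG V (Q₀ * ell w) (κ / 4) E (a w)} ≤
      ENNReal.ofReal (p₁ / (1 / 4)) := by
    rw [H3G.prob_nsg]
    refine (pnsg_mono σ E (Q₀ * ell w) (κ := κ / 2 - 12 * η * K) (by nlinarith) 0).trans ?_
    exact le_of_prod (by norm_num) z3 z4
  -- insulation
  have hins' : PP d (gl σ) {V | ¬ ∀ x ∈ box (a w) (2 * (Q₀ * ell w)),
      ∀ y ∈ box (a w) (2 * (Q₀ * ell w)), Q₀ * ell w + 1 ≤ sd x y →
        κ / 8 * ((Q₀ * ell w : ℕ) : ℝ) ≤ DL (box 0 (N w)) E V x y} ≤ ENNReal.ofReal (1 / 4) := by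
    have hsub : {V : Site d → ℝ | ¬ ∀ x ∈ box (a w) (2 * (Q₀ * ell w)),
        ∀ y ∈ box (a w) (2 * (Q₀ * ell w)), Q₀ * ell w + 1 ≤ sd x y →
        κ / 8 * ((Q₀ * ell w : ℕ) : ℝ) ≤ DL (box 0 (N w)) E V x y} ⊆
        {V | ¬ GoodU V (N w) (K * Q₀) (ell w) (a w) E η} ∪
          {V | ¬ SG V (Q₀ * ell w) (κ / 4) E (a w)} := by
      intro V hV
      by_contra hc
      simp only [Set.mem_union, Set.mem_ofPred_eq, not_or, not_not] at hc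
      apply hV
      intro x hx y hy hxy
      have h1 := hins V (N w) Q₀ (ell w) (a w) E hQ₀ hlw (hℓi.trans hLw) (hbox w) hc.1 hc.2 x hx
        y hy hxy
      push_cast
      have e : κ / 8 * ((Q₀ : ℝ) * (ell w : ℝ)) = κ / 4 / 2 * ((Q₀ : ℝ) * (ell w : ℝ)) := by ring
      rw [e]
      exact h1
    refine (measure_mono hsub).trans ((measure_union_le _ _).trans ?_)
    refine (add_le_add (hbad w) z5).trans ?_
    rw [← ENNReal.ofReal_add hp₁0 (by positivity)]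
    apply ENNReal.ofReal_le_ofReal
    linarith
  -- the ratio of the scales
  have hell1 : ∀ w, ell w = 2 ^ (j w + (J + 1) * w) * ℓ₀ := fun w => by
    rw [hell, pow_add]
    ring
  have hLL : Q₀ * ell v ≤ Q₀ * ell w := by
    apply Nat.mul_le_mul_left
    rw [hell1, hell1]
    apply Nat.mul_le_mul_right
    apply Nat.pow_le_pow_right (by norm_num)
    have h1 := hjJ v
    rw [hwdef]
    nlinarith
  have hLR : Q₀ * ell w ≤ 2 ^ (2 * J + 1) * (Q₀ * ell v) := by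
    have h1 : ell w ≤ 2 ^ (2 * J + 1) * ell v := by
      rw [hell1, hell1, ← mul_assoc, ← pow_add]
      apply Nat.mul_le_mul_right
      apply Nat.pow_le_pow_right (by norm_num)
      have h1 := hjJ w
      rw [hwdef] at h1 ⊢
      nlinarith
    calc Q₀ * ell w ≤ Q₀ * (2 ^ (2 * J + 1) * ell v) := Nat.mul_le_mul_left _ h1
      _ = _ := by ring
  refine hbes σ E (N w) (Q₀ * ell w) (Q₀ * ell v) (a w) hqp (hℓb.trans (hL0 v)) hLL hLR ?_ ?_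
    hins'
  · refine (box_mono (a w) ?_).trans (hbox w)
    have h1 : 1 * (Q₀ * ell w) ≤ K * (Q₀ * ell w) := Nat.mul_le_mul_right _ hK
    have h2 : K * Q₀ * (2 ^ (j w) * (2 ^ ((J + 1) * w) * ℓ₀)) = K * (Q₀ * ell w) := by
      rw [hell]
      ring
    rw [h2]
    omega
  · exact (psg_anti σ E (Q₀ * ell v) hκ1B 0).trans (hcond.trans (ENNReal.ofReal_le_ofReal hp1B))

end Pool.Agent.LE.H93C
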