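import Pool.Agent.Helper93_LE.All
import Pool.Agent.Helper96_LE.AllR
import Pool.Agent.Helper26_LCN.Ufm
import Pool.Agent.Helper54_LEC.UCH
import Pool.Agent.Helper59_LEC.Gvu
import Pool.Agent.Helper96_LEC.Dtu
import Pool.Agent.Helper59_LEC.Zos
import Pool.Agent.Helper39_LEC.CDU
import Pool.Agent.Helper77_LCN.Ins
import Pool.Agent.Helper76_LEC.Upa
import Pool.Agent.Helper85_LE.Lox
import Pool.Agent.Helper17_LEC.UPD
import Pool.Agent.Helper28_LEC.UPM
import Pool.Agent.Helper65_LEC.UPE
import Pool.Agent.Helper93_LEC.UPB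
import Pool.Agent.Helper24_LCN.DMI
import Pool.Agent.Helper96_LEC.Cnt
import Pool.Agent.Helper76_LEC.Reg
import Pool.Agent.Helper15_LEC.BEN
import Pool.Agent.Helper93_LEC.BES
import Pool.Agent.Helper42_LEC.TVC
import Pool.Agent.Helper93_LEC.USA
import Pool.Agent.Helper93_LEC.USO
import Pool.Agent.Helper42_LEC.ConF

/-!
# The Lyapunov exponent is continuous: all modules
-/

set_option autoImplicit false

open MeasureTheory ProbabilityTheory

noncomputable section

namespace Pool.Agent.LE.H93C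

open Pool.Agent.Anderson Pool.Agent.Loc Pool.Agent.Helper54.Bal Pool.Agent.Mob

theorem ufmT : UfmStmt := H26U.ufm

theorem uchT : UchStmt := H54C.uch

theorem gvuT : GvuStmt := H59C.gvu H93.pigT ufmT uchT

theorem dtuT : DtuStmt := H96C.dtu H46.fvd

theorem insT2 : InsStmt2 := H77C.ins dtuT

theorem upbT : UpbStmt :=
  upb (H17C.upd (H76C.upa dtuT) H85.lox) (H28C.upm ufmT H85.lox) H65C.upe

theorem cntT : CntStmt := H96C.cnt H24.dmi

theorem besT : BesStmt :=
  bes uchT cntT (H39C.cdu H46.fvd) (H76C.reg uchT) H15C.ben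

theorem usaT : UsaStmt := usa gvuT upbT H42C.tvc

theorem usoT : UsoStmt := uso gvuT (H59C.zos dtuT) insT2 upbT besT H42C.tvc

theorem conT : ConStmt2 := H42C.con usaT usoT H96.smpT H15.smn H96.algT

end Pool.Agent.LE.H93C
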