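import Pool.Agent.LE.StmtsC
import Pool.Agent.Helper28_LE.GevChain
import Pool.Agent.Helper54_LY.Chn3
import Pool.Agent.Helper93_LE.Fin

/-!
# BES: a cube in which all small cubes conduct is not insulating, lemmas
-/

set_option autoImplicit false
set_option linter.unusedSectionVars false

open MeasureTheory ProbabilityTheory Function Filter

open scoped ENNReal BigOperators Topology

noncomputable section

namespace Pool.Agent.LE.H93C

open Pool.Agent.Anderson Pool.Agent.Loc Pool.Agent.Mob Pool.Agent.Helper54.Bal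

variable {d : ℕ}

theorem measurable_DL (Λ : Finset (Site d)) (E : ℝ) (x y : Site d) :
    Measurable fun V : Site d → ℝ => DL Λ E V x y := by
  unfold DL
  exact (Real.measurable_log.comp (measurable_gr Λ E x y).abs).neg

theorem measurable_mx (N : ℕ) (E : ℝ) (c : Site d) (n : ℕ) :
    Measurable fun V : Site d → ℝ => mx V N E c n :=
  Pool.Agent.LY.measurable_fsup _ fun s => (measurable_DL (box 0 N) E c s).ennreal_ofReal

theorem mx_ne_top (V : Site d → ℝ) (N : ℕ) (E : ℝ) (c : Site d) (n : ℕ) : mx V N E c n ≠ ∞ := by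
  unfold mx
  refine ne_of_lt ?_
  rw [Finset.sup_lt_iff (by simp)]
  exact fun s _ => ENNReal.ofReal_lt_top

theorem DL_le_mx (V : Site d → ℝ) (N : ℕ) (E : ℝ) {c x : Site d} {n : ℕ} (hx : x ∈ box c n) :
    DL (box 0 N) E V c x ≤ (mx V N E c n).toReal := by
  have h1 : ENNReal.ofReal (DL (box 0 N) E V c x) ≤ mx V N E c n :=
    Finset.le_sup (f := fun s => ENNReal.ofReal (DL (box 0 N) E V c s)) hx
  have h2 := ENNReal.toReal_mono (mx_ne_top V N E c n) h1
  refine le_trans ?_ h2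
  rcases le_total 0 (DL (box 0 N) E V c x) with h0 | h0
  · rw [ENNReal.toReal_ofReal h0]
  · exact h0.trans ENNReal.toReal_nonneg

theorem DL_symm (Λ : Finset (Site d)) (E : ℝ) (V : Site d → ℝ) (x y : Site d) :
    DL Λ E V x y = DL Λ E V y x := by
  unfold DL
  rw [gr_symm]

/-- Markov inequality for a sum of non-negative functions -/
theorem markov_sum {Ω : Type*} [MeasurableSpace Ω] {P : Measure Ω} {ι : Type*} (S : Finset ι)
    {f : ι → Ω → ℝ≥0∞} (hf : ∀ i ∈ S, Measurable (f i)) {c T : ℝ≥0∞} (hc : ∀ i ∈ S, ∫⁻ ω, f i ω ∂P ≤ c)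
    (hT : T ≠ 0) (hT' : T ≠ ∞) (h : 4 * (S.card * c) ≤ T) :
    P {ω | T ≤ ∑ i ∈ S, f i ω} ≤ ENNReal.ofReal (1 / 4) := by
  have h1 : ∫⁻ ω, ∑ i ∈ S, f i ω ∂P ≤ S.card * c := by
    rw [lintegral_finsetSum _ hf]
    refine (Finset.sum_le_sum hc).trans (le_of_eq ?_)
    rw [Finset.sum_const, nsmul_eq_mul]
  have hm : Measurable fun ω => ∑ i ∈ S, f i ω := Finset.measurable_sum _ hf
  refine (meas_ge_le_lintegral_div hm.aemeasurable hT hT').trans ?_
  rw [ENNReal.div_le_iff hT hT']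
  refine h1.trans ?_
  have h2 : ENNReal.ofReal (1 / 4) * 4 = 1 := by
    have e : (4 : ℝ≥0∞) = ENNReal.ofReal 4 := by simp
    rw [e, ← ENNReal.ofReal_mul (by norm_num)]
    norm_num
  calc (S.card : ℝ≥0∞) * c = (ENNReal.ofReal (1 / 4) * 4) * (S.card * c) := by rw [h2, one_mul]
    _ = ENNReal.ofReal (1 / 4) * (4 * (S.card * c)) := by rw [mul_assoc]
    _ ≤ _ := mul_le_mul' le_rfl h

theorem sm_sub_apply (s : ℕ) (a k : Site d) (i : Fin d) : (a + sm s k) i = a i + s * k i := by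
  simp only [Pi.add_apply, sm]

theorem abs_le_sd (x y : Site d) (i : Fin d) : |x i - y i| ≤ (sd x y : ℤ) :=
  sd_le_iff.1 le_rfl i

/-- the numbers of the mesh -/
theorem mesh {L L' M s n : ℕ} (hs : s = L' / (4 * M + 4)) (hn : n = L / s) (hs1 : 1 ≤ s)
    (hL : L' ≤ L) : 4 * M * s ≤ L' ∧ s * n ≤ L ∧ L + 1 ≤ s * (n + 1) ∧ 4 * M + 4 ≤ n ∧
      s * (n + 4 * M + 3) ≤ 2 * L := by
  have h1 : s * (4 * M + 4) ≤ L' := by
    rw [hs]
    exact Nat.div_mul_le_self _ _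
  have h2 : s * n ≤ L := by
    rw [hn, mul_comm]
    exact Nat.div_mul_le_self _ _
  have h3 : L < s * (n + 1) := by
    rw [hn]
    exact Nat.lt_mul_div_succ L (by omega)
  have h4 : 4 * M + 4 ≤ n := by
    rw [hn, Nat.le_div_iff_mul_le (by omega)]
    have : (4 * M + 4) * s = s * (4 * M + 4) := by ring
    omega
  have h5 : s * (n + 4 * M + 3) = s * n + s * (4 * M + 4) - s := by
    have : s * (n + 4 * M + 3) + s = s * n + s * (4 * M + 4) := by ring
    omega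
  have h6 : 4 * M * s ≤ s * (4 * M + 4) := by nlinarith
  refine ⟨by omega, h2, by omega, h4, by omega⟩

/-- for large `L` the polynomial factor is small -/
theorem exists_large (d : ℕ) {τ : ℝ} (hτ : 0 < τ) : ∃ L₀ : ℕ, ∀ L : ℕ, L₀ ≤ L →
    1 + 2 * (d : ℝ) * (2 * L + 1) ^ d ≤ Real.exp (τ * L) := by
  have h1 : Tendsto (fun x : ℝ => Real.exp x / x ^ (d + 1)) atTop atTop :=
    Real.tendsto_exp_div_pow_atTop (d + 1)
  have h2 : Tendsto (fun L : ℕ => τ * (L : ℝ)) atTop atTop :=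
    Tendsto.const_mul_atTop hτ tendsto_natCast_atTop_atTop
  have h3 := (h1.comp h2).eventually_ge_atTop ((1 + 2 * (d : ℝ)) * 3 ^ d / τ ^ (d + 1))
  obtain ⟨L₁, hL₁⟩ := eventually_atTop.1 h3
  refine ⟨max L₁ 1, fun L hL => ?_⟩
  have h4 := hL₁ L ((le_max_left _ _).trans hL)
  have hL1 : (1 : ℝ) ≤ L := by exact_mod_cast (le_max_right L₁ 1).trans hL
  simp only [Function.comp] at h4
  rw [div_le_div_iff₀ (by positivity) (by positivity)] at h4
  have h5 : (0 : ℝ) < τ ^ (d + 1) := by positivity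
  have h6 : (1 + 2 * (d : ℝ)) * 3 ^ d * (L : ℝ) ^ (d + 1) ≤ Real.exp (τ * L) := by
    have h7 : (1 + 2 * (d : ℝ)) * 3 ^ d * (τ * L) ^ (d + 1) =
        ((1 + 2 * (d : ℝ)) * 3 ^ d * (L : ℝ) ^ (d + 1)) * τ ^ (d + 1) := by
      rw [mul_pow]
      ring
    rw [h7] at h4
    exact le_of_mul_le_mul_right h4 h5
  refine le_trans ?_ h6
  have h8 : (2 * (L : ℝ) + 1) ^ d ≤ 3 ^ d * (L : ℝ) ^ d := by
    rw [← mul_pow]
    exact pow_le_pow_left₀ (by positivity) (by linarith) d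
  have h9 : (L : ℝ) ^ d ≤ (L : ℝ) ^ (d + 1) := pow_le_pow_right₀ hL1 (by omega)
  have h10 : (1 : ℝ) ≤ 3 ^ d * (L : ℝ) ^ (d + 1) := by
    have := one_le_pow₀ (n := d) (by norm_num : (1 : ℝ) ≤ 3)
    have := one_le_pow₀ (n := d + 1) hL1
    nlinarith
  have hd0 : (0 : ℝ) ≤ d := Nat.cast_nonneg d
  have h11 : (3 : ℝ) ^ d * (L : ℝ) ^ d ≤ 3 ^ d * (L : ℝ) ^ (d + 1) :=
    mul_le_mul_of_nonneg_left h9 (by positivity)
  calc 1 + 2 * (d : ℝ) * (2 * L + 1) ^ d
      ≤ 3 ^ d * (L : ℝ) ^ (d + 1) + 2 * d * (3 ^ d * (L : ℝ) ^ (d + 1)) := by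
        have := mul_le_mul_of_nonneg_left (h8.trans h11) (by positivity : (0 : ℝ) ≤ 2 * d)
        linarith
    _ = _ := by ring

/-- the conducting point, in terms of `D` -/
theorem conduct_DL {d : ℕ} {Λ : Finset (Site d)} {E κ t : ℝ} {V : Site d → ℝ} {b v : Site d} {L : ℕ}
    (ht : 0 ≤ t)
    (hp : 1 + 2 * (d : ℝ) * (2 * L + 1) ^ d ≤ Real.exp t)
    (h : Real.exp (-κ * L) ≤ (1 + 2 * d * (2 * L + 1) ^ d * Real.exp t) ^ 2 * |gr V Λ E b v|) :
    DL Λ E V b v ≤ κ * L + 4 * t := by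
  have h1 : 1 + 2 * (d : ℝ) * (2 * L + 1) ^ d * Real.exp t ≤ Real.exp (2 * t) := by
    have h2 : 1 + 2 * (d : ℝ) * (2 * L + 1) ^ d * Real.exp t ≤
        (1 + 2 * (d : ℝ) * (2 * L + 1) ^ d) * Real.exp t := by
      have := Real.one_le_exp ht
      nlinarith
    refine h2.trans ?_
    rw [show 2 * t = t + t by ring, Real.exp_add]
    exact mul_le_mul_of_nonneg_right hp (Real.exp_pos t).le
  have h2 : (1 + 2 * (d : ℝ) * (2 * L + 1) ^ d * Real.exp t) ^ 2 ≤ Real.exp (4 * t) := by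
    rw [show 4 * t = 2 * t + 2 * t by ring, Real.exp_add, ← pow_two]
    exact pow_le_pow_left₀ (by positivity) h1 2
  have h3 : Real.exp (-κ * L) ≤ Real.exp (4 * t) * |gr V Λ E b v| :=
    h.trans (mul_le_mul_of_nonneg_right h2 (abs_nonneg _))
  have h4 : 0 < |gr V Λ E b v| := by
    by_contra hc
    have h5 : |gr V Λ E b v| = 0 := le_antisymm (not_lt.1 hc) (abs_nonneg _)
    rw [h5, mul_zero] at h3
    exact absurd (Real.exp_pos _) (not_lt.2 h3)
  have h5 := Real.log_le_log (Real.exp_pos _) h3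
  rw [Real.log_mul (Real.exp_pos _).ne' h4.ne', Real.log_exp, Real.log_exp] at h5
  unfold DL
  linarith

end Pool.Agent.LE.H93C
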