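import Pool.Agent.LE.StmtsC

/-!
UPB: in the insulating phase the Lyapunov exponent is at most the rate at a good scale.
-/

set_option autoImplicit false

open MeasureTheory ProbabilityTheory Function Filter

open scoped ENNReal BigOperators Topology

noncomputable section

namespace Pool.Agent.LE.H93C

open Pool.Agent.Anderson Pool.Agent.Loc Pool.Agent.Mob Pool.Agent.Helper54.Bal
  Pool.Agent.Helper96.EXP Pool.Agent.LE

theorem upb (upd : UpdStmt) (upm : UpmStmt) (upe : UpeStmt) : UpbStmt := by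
  intro d B κ' κ₀ ε hd hB hκ' hκ₀ hε
  set K : ℕ := max 8 ⌈16 * (κ₀ + 2) / κ'⌉₊ with hK
  have hK8 : 8 ≤ K := le_max_left _ _
  have hK1 : (16 * (κ₀ + 2)) ≤ κ' * K := by
    have h1 : 16 * (κ₀ + 2) / κ' ≤ (K : ℝ) :=
      (Nat.le_ceil _).trans (by exact_mod_cast le_max_right _ _)
    rw [div_le_iff₀ hκ'] at h1
    linarith
  have hK0 : (0 : ℝ) < K := by
    have : (8 : ℝ) ≤ K := by exact_mod_cast hK8
    linarith
  obtain ⟨ηm, θm, hηm, hθm, hm⟩ := upm d B κ' κ₀ ε K hd hB hκ' hκ₀ hε hK8 hK1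
  refine ⟨K, by omega, min ηm (min (κ' / (24 * K)) (1 / (16 * K))),
    min (θm / (4 * 3 ^ d)) (1 / 8), ?_, ?_, ?_, ?_⟩
  · positivity
  · positivity
  · exact (min_le_right _ _).trans (by norm_num)
  intro η hη hη'
  have hη1 : η ≤ ηm := hη'.trans (min_le_left _ _)
  have hη2 : 24 * η * K ≤ κ' := by
    have h1 : η ≤ κ' / (24 * K) := hη'.trans ((min_le_right _ _).trans (min_le_left _ _))
    rw [le_div_iff₀ (by positivity)] at h1
    linarith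
  have hη3 : 16 * η * K ≤ 1 := by
    have h1 : η ≤ 1 / (16 * K) := hη'.trans ((min_le_right _ _).trans (min_le_right _ _))
    rw [le_div_iff₀ (by positivity)] at h1
    linarith
  obtain ⟨Lm, hLm⟩ := hm η hη hη1
  obtain ⟨Ld, hLd⟩ := upd d η κ' κ₀ K hd hη hκ' hκ₀ hK8 hη2 hη3 hK1
  refine ⟨max Lm Ld, ?_⟩
  intro σ E g N Q₁ ℓ a hpar hg hQ₁ hℓ hL hbox hgood hins hnot
  have hσ : σ ≠ 0 := by
    intro h0
    have := hpar.2.2
    rw [h0] at this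
    norm_num at this
  set θ : ℝ := min (θm / (4 * 3 ^ d)) (1 / 8) with hθ
  have hθ0 : 0 < θ := by positivity
  have hθ1 : θ ≤ 1 / 8 := min_le_right _ _
  have hθ2 : 4 * 3 ^ d * θ ≤ θm := by
    have h1 : θ ≤ θm / (4 * 3 ^ d) := min_le_left _ _
    rw [le_div_iff₀ (by positivity)] at h1
    linarith
  have hQR : (1 : ℝ) ≤ Q₁ := by exact_mod_cast hQ₁
  have hQd : (1 : ℝ) ≤ (Q₁ : ℝ) ^ d := one_le_pow₀ hQR
  set p : ℝ := θ / (Q₁ : ℝ) ^ d with hp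
  have hp0 : 0 ≤ p := by positivity
  have hpθ : p ≤ θ := div_le_self hθ0.le hQd
  obtain ⟨hA, y, hy, hY⟩ := hLd σ E p N Q₁ ℓ a hσ hp0 (hpθ.trans hθ1) hQ₁ hℓ
    ((le_max_right _ _).trans hL) hbox hgood hins hnot
  have hpm : 2 * p ≤ θm := by
    have h3 : (1 : ℝ) ≤ 3 ^ d := one_le_pow₀ (by norm_num)
    nlinarith
  have hpm2 : 4 * (2 * (Q₁ : ℝ) + 1) ^ d * p ≤ θm := by
    have h1 : (2 * (Q₁ : ℝ) + 1) ^ d ≤ 3 ^ d * (Q₁ : ℝ) ^ d := by
      rw [← mul_pow]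
      exact pow_le_pow_left₀ (by positivity) (by linarith) d
    have h2 : (Q₁ : ℝ) ^ d * p = θ := by
      rw [hp]
      field_simp
    calc 4 * (2 * (Q₁ : ℝ) + 1) ^ d * p ≤ 4 * (3 ^ d * (Q₁ : ℝ) ^ d) * p := by gcongr
      _ = 4 * 3 ^ d * ((Q₁ : ℝ) ^ d * p) := by ring
      _ = 4 * 3 ^ d * θ := by rw [h2]
      _ ≤ θm := hθ2
  refine upe d σ E g (κ₀ + ε) (K + 2) Q₁ ℓ y hd hσ hg hQ₁ hℓ hy ?_
  intro m M hm1 hM
  exact hLm σ E Q₁ ℓ y hpar hQ₁ hℓ ((le_max_left _ _).trans hL) hy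
    (fun b => (hA b).trans (ENNReal.ofReal_le_ofReal hpm))
    (fun b => (hY b).trans (ENNReal.ofReal_le_ofReal hpm2)) m M hm1
    (by simpa [add_assoc] using hM)

end Pool.Agent.LE.H93C
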